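import Pool.Agent.V11196.Hyp.Proof

/-!
# A non-flat hyperbolic `(4,6)`-distribution germ with Reeb directions

The germ at `0` of `D = ker (dz₁ - y₁ dx₁ - x₂ y₂ dx₂) ∩ ker (dz₂ - y₂ dx₂)` is hyperbolic, admits the
Reeb directions `∂_{z₁}, ∂_{z₂}`, and is not diffeomorphic to the flat hyperbolic germ.  Indeed `D` is
canonically the sum of two rank 2 distributions; for the flat germ both have growth vector
`(2, 3, 3)`, while for `D` one of them is an Engel distribution on the leaves `x₁, y₁ = const`.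
-/

namespace Pool.Agent.Results.MP_08c0df_gt.NonflatReebGerm

open Pool.Agent.V11196.Hyp

theorem result : ∃ D : E → Submodule ℝ E, IsDistribution46 D 0 ∧ IsHyperbolic D 0 ∧
    AdmitsReebDirections D 0 ∧ ¬ GermDiffeomorphic D 0 flatHyperbolic 0 :=
  ⟨DD, ⟨lam, isCoframe_lam 0⟩, isHyperbolic, admitsReeb, not_flat⟩

end Pool.Agent.Results.MP_08c0df_gt.NonflatReebGerm
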